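import Pool.Agent.H354.BG.Stm

set_option autoImplicit false

/-! Project BG (helper354), tasks SEM1 and ADS (helper337): an admissible syllable is an admissible
prolongation of the system and gives the right state. -/

namespace Pool.Agent.H337.BG.SEM1

open Pool.Agent.H354.BG
open Pool.Agent.H482R3.EA (W inv ev PP xx evF cond1 cond2 Syl gOf Sys St Near InD Adm Act)
open Pool.Agent.H482R3.EB (tot wp alt rels AR gR TR Tame Symm alt_length)

/-- prolongation by `y ∈ L l` from the state `s` to the state `s'` -/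
def Core (S : Sys) (s s' : St S) (l : S.Ln) (y : S.L l) : Prop :=
  (∃ (p : S.P) (n : ℤ), S.I p l ∧ n ≠ 0 ∧ ¬ Near S p s ∧ y = S.x l p ^ n ∧ s' = .pt p) ∨
  (s' = .ln l ∧ ¬ InD S l s ∧ (∀ q, S.I q l → ¬ Near S q s) ∧
    ∀ (r : S.P) (a : ℤ), S.I r l → y ≠ S.x l r ^ a) ∨
  (s' = .ln l ∧ ¬ InD S l s ∧ ∃ q, S.I q l ∧ Near S q s ∧
    ∀ (r : S.P) (a b : ℤ), S.I r l → y ≠ S.x l q ^ a * S.x l r ^ b)

lemma core_adm {S : Sys} {s s' : St S} {l : S.Ln} {y : S.L l} (h : Core S s s' l y) :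
    Adm S s l y := by
  rcases h with ⟨p, n, h1, h2, h3, h4, -⟩ | ⟨-, h1, h2, h3⟩ | ⟨-, h1, h2⟩
  · exact Or.inl ⟨p, n, h1, h2, h3, h4⟩
  · exact Or.inr (Or.inl ⟨h1, h2, h3⟩)
  · exact Or.inr (Or.inr ⟨h1, h2⟩)

lemma core_st {S : Sys} (A : Act S) {s s' : St S} {l : S.Ln} {y : S.L l} (h : Core S s s' l y)
    (ω : A.Ω) (hω : A.st ω = s) : A.st (A.act ω l y) = s' := by
  subst hω
  rcases h with ⟨p, n, h1, h2, h3, h4, h5⟩ | ⟨h0, h1, h2, h3⟩ | ⟨h0, h1, q, h2, h3, h4⟩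
  · rw [h4, h5]
    exact A.st_pt ω l p n h1 h2 h3
  · rw [h0]
    exact A.st_ln ω l y h1 h2 h3
  · rw [h0]
    exact A.st_ln' ω l y q h1 h2 h3 h4

/-- a homomorphism of evaluations -/
lemma map_ev' {S G K : Type} [Group G] [Group K] (f : S → G) (φ : G →* K) (u : W S) :
    φ (ev f u) = ev (fun s => φ (f s)) u := by
  unfold ev
  rw [map_list_prod, List.map_map]
  congr 1
  apply List.map_congr_left
  intro a _
  simp only [Function.comp_apply]
  split_ifs
  · rfl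
  · exact map_inv _ _

section

variable (D : Dat) (U : Finset (Fin D.r)) (b : Fin D.r)

/-- the points of the cross line of `g` are the `(g w^i, v)` -/
lemma pt_cross {v w : Fin D.n} (hc : okL D U b v w) (g g1 : D.A)
    (hg : (QuotientGroup.mk g : D.A ⧸ Hw D U b w) = QuotientGroup.mk g1) :
    ∃ i : ℤ, (QuotientGroup.mk g1 : D.A ⧸ H0 D U b) = QuotientGroup.mk (g * gR D.m w ^ i) := by
  rw [QuotientGroup.eq, mem_Hw] at hg
  obtain ⟨i, u, hu, hi⟩ := hg
  refine ⟨i, ?_⟩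
  rw [QuotientGroup.eq, mem_H0]
  have h1 : g1⁻¹ * (g * gR D.m w ^ i) = (g⁻¹ * g1)⁻¹ * gR D.m w ^ i := by group
  rw [h1, map_mul, map_inv, hi, rho_zpow_in D hc.2.1]
  have h2 : (gR D.m w ^ i * u)⁻¹ * gR D.m w ^ i = u⁻¹ := by group
  rw [h2]
  exact Subgroup.inv_mem _ (par_mono D (pZ_sub D (pZ D U b) (D.β w)) hu)

/-- the index of the point `(g w^i, v)` -/
lemma eg_out {v w : Fin D.n} (hc : okL D U b v w) (t g : D.A) (i : ℤ) :
    eg D (D.β w) (t⁻¹ * (QuotientGroup.mk (g * gR D.m w ^ i) : D.A ⧸ H0 D U b).out) =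
      eg D (D.β w) (t⁻¹ * g) + i := by
  obtain ⟨z, hz⟩ := QuotientGroup.mk_out_eq_mul (H0 D U b) (g * gR D.m w ^ i)
  rw [hz, ← mul_assoc, eg_mul, eg_H0 D U b hc z.2, add_zero, ← mul_assoc, eg_mul, eg_gR_zpow]

lemma mk_Hw (w : Fin D.n) (hw : D.β w ∈ U) (g : D.A) (i : ℤ) :
    (QuotientGroup.mk g : D.A ⧸ Hw D U b w) = QuotientGroup.mk (g * gR D.m w ^ i) := by
  rw [QuotientGroup.eq, mem_Hw, inv_mul_cancel_left]
  exact ⟨i, 1, Subgroup.one_mem _, by rw [rho_zpow_in D hw, mul_one]⟩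

end

theorem core (hdic : S_DICX) (D : Dat) (U : Finset (Fin D.r)) (b : Fin D.r) (hb : b ∉ U)
    (h : SysOK D U b) (s : Option (Sy D)) (a : Sy D) (hs : okO D U b s)
    (hA : AdmW D U b s a) : okS D U b a ∧
      Core (sysX D U b h) (stO D U b h s) (stO D U b h (some a)) (lyO D U b a).1
        (lyO D U b a).2 := by
  rcases a with ⟨g, v, e, n⟩ | ⟨g, y⟩ | ⟨g, v, w, y⟩
  · -- point syllables
    obtain ⟨hv, hn, hN⟩ := hA
    refine ⟨hv, Or.inl ⟨((QuotientGroup.mk (gEl D g), ⟨v, hv⟩) : Pt D U b),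
      if e then (n : ℤ) else -(n : ℤ), rfl, by split_ifs <;> omega, ?_, ?_, ?_⟩⟩
    · rw [← (hdic D U b hb h s g hs).1 v hv]
      exact hN
    · change (rhoP D b (lt D (v, e)) ^ n : par D {b}) = (rhoP D b (gR D.m v) : par D {b}) ^
        (if e then (n : ℤ) else -(n : ℤ))
      cases e
      · rw [lt_false, map_inv, inv_pow, if_neg (by simp), zpow_neg, zpow_natCast]
      · rw [lt_true, if_pos rfl, zpow_natCast]
    · exact dif_pos hv
  · -- block line syllables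
    obtain ⟨hI, hc⟩ := hA
    refine ⟨trivial, Or.inr ?_⟩
    obtain ⟨hd1, hd2, hd3⟩ := hdic D U b hb h s g hs
    rw [hd2] at hI
    have hpow : ∀ (v' : {v : Fin D.n // D.β v = b}) (i : ℤ),
        (((rhoP D b (gR D.m v'.1) : par D {b}) ^ i : par D {b}) : D.A) = gR D.m v'.1 ^ i := by
      rintro ⟨v', hv'⟩ i
      rw [Subgroup.coe_zpow, rhoP_coe, rho_gR, if_pos (Finset.mem_singleton.mpr hv')]
    rcases hc with ⟨hc1, hc2⟩ | ⟨v, hv, hc1, hc2⟩
    · refine Or.inl ⟨rfl, hI, ?_, ?_⟩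
      · rintro ⟨g', v', hv'⟩ hq hN
        change g' = QuotientGroup.mk (gEl D g) at hq
        subst hq
        exact hc1 v' hv' ((hd1 v' hv').mpr hN)
      · rintro ⟨g', v'⟩ i hr hy
        change (rhoP D b (gEl D y) : par D {b}) = (rhoP D b (gR D.m v'.1) : par D {b}) ^ i at hy
        have h1 := congrArg (fun z : par D {b} => (z : D.A)) hy
        simp only [hpow, rhoP_coe] at h1
        exact hc2 v'.1 i v'.2 h1
    · refine Or.inr ⟨rfl, hI, ((QuotientGroup.mk (gEl D g), ⟨v, hv⟩) : Pt D U b), rfl,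
        (hd1 v hv).mp hc1, ?_⟩
      rintro ⟨g', v'⟩ i j hr hy
      change (rhoP D b (gEl D y) : par D {b}) = (rhoP D b (gR D.m v) : par D {b}) ^ i *
        (rhoP D b (gR D.m v'.1) : par D {b}) ^ j at hy
      have h1 := congrArg (fun z : par D {b} => (z : D.A)) hy
      simp only [Subgroup.coe_mul, hpow, hpow ⟨v, hv⟩, rhoP_coe] at h1
      exact hc2 v'.1 i j v'.2 h1
  · -- cross line syllables
    obtain ⟨hc, hI, hcond⟩ := hA
    refine ⟨hc, ?_⟩
    have hk2 : 0 < kk D v w := by have := (kk_spec D hc).1; omega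
    set l : Ln D U b := Sum.inr ⟨(⟨(v, w), hc⟩ : LI D U b), QuotientGroup.mk (gEl D g)⟩ with hl
    set d : ℤ := eg D (D.β w) (((QuotientGroup.mk (gEl D g) : D.A ⧸ Hw D U b w).out)⁻¹ * gEl D g)
      with hd
    have e1 : lyO D U b (.inr (.inr (g, v, w, y)) : Sy D) = ⟨l,
          (ev (fun r : ℕ => xx (kk D v w) (((r % kk D v w : ℕ) : ℤ) + d)) y :
            FreeGroup (Fin (kk D v w)))⟩ := by
      unfold lyO
      exact dif_pos hc
    have e2 : stO D U b h (some (.inr (.inr (g, v, w, y)) : Sy D)) = .ln l := by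
      unfold stO
      exact dif_pos hc
    rw [e1, e2]
    obtain ⟨σ, hσ⟩ := Pool.Agent.H482R3.EB.Asm.xs (kk D v w) d hk2
    have hy : (ev (fun r : ℕ => xx (kk D v w) (((r % kk D v w : ℕ) : ℤ) + d)) y :
            FreeGroup (Fin (kk D v w))) = σ (evF (kk D v w) y) := by
      unfold evF
      rw [show σ (ev (fun r : ℕ => xx (kk D v w) ((r % kk D v w : ℕ) : ℤ)) y)
        = σ.toMonoidHom (ev (fun r : ℕ => xx (kk D v w) ((r % kk D v w : ℕ) : ℤ)) y) from rfl,
        map_ev']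
      have hf : (fun r : ℕ => xx (kk D v w) (((r % kk D v w : ℕ) : ℤ) + d)) =
          fun r : ℕ => σ.toMonoidHom (xx (kk D v w) ((r % kk D v w : ℕ) : ℤ)) := by
        funext r
        exact (hσ _).symm
      rw [hf]
    rw [hy]
    -- points of the line
    have hpt : ∀ (i : ℤ) (v' : {v : Fin D.n // D.β v = b}),
        xl D U b l ((QuotientGroup.mk (gEl D g * gR D.m w ^ i), v') : Pt D U b) =
        (xx (kk D v w) (i + d) : FreeGroup (Fin (kk D v w))) := by
      intro i v'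
      change xx (kk D v w) (eg D (D.β w) (((QuotientGroup.mk (gEl D g) :
        D.A ⧸ Hw D U b w).out)⁻¹ *
          (QuotientGroup.mk (gEl D g * gR D.m w ^ i) : D.A ⧸ H0 D U b).out)) = _
      rw [eg_out D U b hc, ← hd, add_comm]
    have hpt2 : ∀ r : Pt D U b, Ix D U b r l → ∃ i : ℤ,
        r = ((QuotientGroup.mk (gEl D g * gR D.m w ^ i), ⟨v, hc.1⟩) : Pt D U b) := by
      rintro ⟨g', v', hv''⟩ ⟨hv', g1, hg1, hg2⟩
      change v' = v at hv'
      change g' = QuotientGroup.mk g1 at hg1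
      change (QuotientGroup.mk (gEl D g) : D.A ⧸ Hw D U b w) = QuotientGroup.mk g1 at hg2
      subst hv'
      subst hg1
      obtain ⟨i, hi⟩ := pt_cross D U b hc _ _ hg2
      exact ⟨i, by rw [hi]⟩
    have hIx : ∀ i : ℤ, Ix D U b
        ((QuotientGroup.mk (gEl D g * gR D.m w ^ i), ⟨v, hc.1⟩) : Pt D U b) l := by
      intro i
      exact ⟨rfl, gEl D g * gR D.m w ^ i, rfl, mk_Hw D U b w hc.2.1 _ _⟩
    have hone : ∀ i a : ℤ, σ (evF (kk D v w) y) = (xx (kk D v w) (i + d)) ^ a →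
        evF (kk D v w) y = (xx (kk D v w) i) ^ a := by
      intro i a h3
      rw [← hσ, ← map_zpow] at h3
      exact σ.injective h3
    have htwo : ∀ j i a c : ℤ, σ (evF (kk D v w) y) =
        (xx (kk D v w) (j + d)) ^ a * (xx (kk D v w) (i + d)) ^ c →
        evF (kk D v w) y = (xx (kk D v w) j) ^ a * (xx (kk D v w) i) ^ c := by
      intro j i a c h3
      rw [← hσ, ← hσ, ← map_zpow, ← map_zpow, ← map_mul] at h3
      exact σ.injective h3
    have hgw : ∀ j : ℤ, gEl D (g ++ wp w j) = gEl D g * gR D.m w ^ j := by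
      intro j
      rw [gEl_append, gEl_wp]
    rw [(hdic D U b hb h s g hs).2.2 v w hc] at hI
    rcases hcond with ⟨hc1, hc2⟩ | ⟨j, hc1, hc2⟩
    · refine Or.inr (Or.inl ⟨rfl, hI, ?_, ?_⟩)
      · intro q hq hN
        obtain ⟨i, hi⟩ := hpt2 q hq
        apply hc1 i
        rw [(hdic D U b hb h s (g ++ wp w i) hs).1 v hc.1, hgw, ← hi]
        exact hN
      · intro r a hr hyy
        obtain ⟨i, hi⟩ := hpt2 r hr
        change σ (evF (kk D v w) y) = xl D U b l r ^ a at hyy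
        have h3 : σ (evF (kk D v w) y) = (xx (kk D v w) (i + d)) ^ a :=
          hyy.trans (congrArg (fun z : LG D U b l => z ^ a) (by rw [hi]; exact hpt i _))
        exact hc2 i a (hone i a h3)
    · have hN := ((hdic D U b hb h s (g ++ wp w j) hs).1 v hc.1).1 hc1
      rw [hgw] at hN
      refine Or.inr (Or.inr ⟨rfl, hI, _, hIx j, hN, ?_⟩)
      intro r a c hr hyy
      obtain ⟨i, hi⟩ := hpt2 r hr
      have h3 : σ (evF (kk D v w) y) =
          (xx (kk D v w) (j + d)) ^ a * (xx (kk D v w) (i + d)) ^ c :=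
        hyy.trans (congrArg₂ (fun z z' : LG D U b l => z ^ a * z' ^ c) (hpt j _)
          (by rw [hi]; exact hpt i _))
      exact hc2 i a c (htwo _ i a c h3)

theorem t_SEM1X (hdic : S_DICX) : S_SEM1X := by
  intro D U b hb h A s a ω hs hA hω
  obtain ⟨h1, h2⟩ := core hdic D U b hb h s a hs hA
  exact ⟨h1, core_st A h2 ω hω⟩

theorem t_ADSX (hdic : S_DICX) : S_ADSX := by
  intro D U b hb h s a hs hA
  exact core_adm (core hdic D U b hb h s a hs hA).2

end Pool.Agent.H337.BG.SEM1
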